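import Pool.Agent.U931.Q3.One

/-! Ternary constant distance code pairs: a bound in terms of the number of coordinates at which
both sets use all three letters. -/

namespace U931Q3
open Finset H825CD

variable {ι : Type} [Fintype ι] [DecidableEq ι]

/-- at coordinate `j` one of the two sets omits a letter -/
def NonFull (A B : Finset (ι → Fin (2 + 1))) (j : ι) : Prop :=
  ∃ z : Fin (2 + 1), (∀ a ∈ A, a j ≠ z) ∨ (∀ b ∈ B, b j ≠ z)

/-- number of pairs differing at `j` -/
def dif (A B : Finset (ι → Fin (2 + 1))) (j : ι) : ℕ :=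
  ((A ×ˢ B).filter (fun p => p.1 j ≠ p.2 j)).card

section

variable {δ K : ℕ} {A B : Finset (ι → Fin (2 + 1))} {j : ι}

theorem dif_eq (hd : ∀ a ∈ A, ∀ b ∈ B, hammingDist a b = δ) (j : ι) :
    dif A B j = ∑ x : Fin (2 + 1), cnt A j {x} * na B j x := by
  have h1 := CR_eq 2 A B j
  have h2 := Finset.card_filter_add_card_filter_not (s := A ×ˢ B) (fun p => p.1 j = p.2 j)
  rw [h1, Finset.card_product] at h2
  have h3 : ∑ x : Fin (2 + 1), cnt A j {x} * cnt B j {x} +
      ∑ x : Fin (2 + 1), cnt A j {x} * na B j x = A.card * B.card := by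
    rw [← sum_add_distrib, ← cnt_sum hd j, sum_mul]
    refine sum_congr rfl fun x _ => ?_
    rw [← cnt_eq B j x, mul_add]
  have h4 : dif A B j = ((A ×ˢ B).filter (fun p => ¬ p.1 j = p.2 j)).card := rfl
  omega

omit [Fintype ι] [DecidableEq ι] in
theorem dif_symm : dif A B j = dif B A j := by
  unfold dif
  refine card_bij' (fun p _ => (p.2, p.1)) (fun p _ => (p.2, p.1)) ?_ ?_ ?_ ?_
  · intro p hp
    rw [mem_filter, mem_product] at hp ⊢
    exact ⟨⟨hp.1.2, hp.1.1⟩, fun h => hp.2 h.symm⟩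
  · intro p hp
    rw [mem_filter, mem_product] at hp ⊢
    exact ⟨⟨hp.1.2, hp.1.1⟩, fun h => hp.2 h.symm⟩
  · intro p _; rfl
  · intro p _; rfl

theorem k1 (hK : ∀ P R : Finset (Fin (2 + 1)), Disjoint P R → pcnt A j P * pcnt B j R ≤ K)
    (x : Fin (2 + 1)) : cnt A j {x} * nz B j x ≤ K := by
  have h := hK {x} (univ.erase x) (by simp)
  rw [S1_pcnt] at h
  have h3 : pcnt B j (univ.erase x) = nz B j x := by
    unfold pcnt nz
    simp
  have h4 := cnt_eq A j x
  have h5 : A.card - na A j x = cnt A j {x} := by omega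
  rwa [h3, h5] at h

theorem hKs (hK : ∀ P R : Finset (Fin (2 + 1)), Disjoint P R → pcnt A j P * pcnt B j R ≤ K) :
    ∀ P R : Finset (Fin (2 + 1)), Disjoint P R → pcnt B j P * pcnt A j R ≤ K := by
  intro P R h
  rw [mul_comm]
  exact hK R P h.symm

/-- one of the sets uses one letter only -/
theorem dif_half (hd : ∀ a ∈ A, ∀ b ∈ B, hammingDist a b = δ)
    (hK : ∀ P R : Finset (Fin (2 + 1)), Disjoint P R → pcnt A j P * pcnt B j R ≤ K)
    (y : Fin (2 + 1)) (hy : na A j y = 0) : dif A B j ≤ 2 * K := by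
  rw [dif_eq hd j]
  have h0 : ∀ x : Fin (2 + 1), x ≠ y → cnt A j {x} = 0 := by
    intro x hx
    unfold cnt
    rw [card_eq_zero, filter_eq_empty_iff]
    intro a ha h
    unfold na at hy
    rw [card_eq_zero, filter_eq_empty_iff] at hy
    have h1 := hy ha
    rw [not_not] at h1
    rw [mem_singleton] at h
    exact hx (h.symm.trans h1)
  rw [sum_eq_single y (fun x _ hx => by rw [h0 x hx, zero_mul])
    (fun h => absurd (mem_univ y) h)]
  calc cnt A j {y} * na B j y ≤ cnt A j {y} * (2 * nz B j y) :=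
        Nat.mul_le_mul_left _ (na_le2 B j y)
    _ = 2 * (cnt A j {y} * nz B j y) := by ring
    _ ≤ 2 * K := Nat.mul_le_mul_left _ (k1 hK y)

theorem dif_nact (hd : ∀ a ∈ A, ∀ b ∈ B, hammingDist a b = δ)
    (hK : ∀ P R : Finset (Fin (2 + 1)), Disjoint P R → pcnt A j P * pcnt B j R ≤ K)
    (h : ¬ Act A B j) : dif A B j ≤ 2 * K := by
  unfold Act at h
  push Not at h
  obtain ⟨y, hy⟩ := h
  by_cases h1 : na A j y = 0
  · exact dif_half hd hK y h1
  · rw [dif_symm]
    exact dif_half (δ := δ) (fun b hb a ha => by rw [hammingDist_comm]; exact hd a ha b hb)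
      (hKs hK) y (hy h1)

theorem dif_omit (hd : ∀ a ∈ A, ∀ b ∈ B, hammingDist a b = δ)
    (hK : ∀ P R : Finset (Fin (2 + 1)), Disjoint P R → pcnt A j P * pcnt B j R ≤ K)
    (hact : Act A B j) (z : Fin (2 + 1)) (hz : ∀ a ∈ A, a j ≠ z) : dif A B j ≤ 2 * K := by
  rw [dif_eq hd j]
  have h0 : cnt A j {z} = 0 := by
    unfold cnt
    rw [card_eq_zero, filter_eq_empty_iff]
    intro a ha h
    rw [mem_singleton] at h
    exact hz a ha h
  rw [← add_sum_erase univ _ (mem_univ z), h0, zero_mul, zero_add]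
  have h2 : (univ.erase z : Finset (Fin (2 + 1))).card = 2 := by
    rw [card_erase_of_mem (mem_univ z), card_univ, Fintype.card_fin]
  calc ∑ x ∈ univ.erase z, cnt A j {x} * na B j x ≤ ∑ x ∈ univ.erase z, K :=
        sum_le_sum fun x _ => by rw [← nz_eqB hd hact x]; exact k1 hK x
    _ = 2 * K := by rw [sum_const, h2, smul_eq_mul]

theorem dif_le2 (hd : ∀ a ∈ A, ∀ b ∈ B, hammingDist a b = δ)
    (hK : ∀ P R : Finset (Fin (2 + 1)), Disjoint P R → pcnt A j P * pcnt B j R ≤ K)
    (h : NonFull A B j) : dif A B j ≤ 2 * K := by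
  by_cases hact : Act A B j
  · obtain ⟨z, hz | hz⟩ := h
    · exact dif_omit hd hK hact z hz
    · rw [dif_symm]
      exact dif_omit (δ := δ) (fun b hb a ha => by rw [hammingDist_comm]; exact hd a ha b hb)
        (hKs hK) hact.symm z hz
  · exact dif_nact hd hK hact

theorem dif_le3 (hd : ∀ a ∈ A, ∀ b ∈ B, hammingDist a b = δ)
    (hK : ∀ P R : Finset (Fin (2 + 1)), Disjoint P R → pcnt A j P * pcnt B j R ≤ K) :
    dif A B j ≤ 3 * K := by
  by_cases hact : Act A B j
  · rw [dif_eq hd j]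
    calc ∑ x : Fin (2 + 1), cnt A j {x} * na B j x ≤ ∑ _x : Fin (2 + 1), K :=
          sum_le_sum fun x _ => by rw [← nz_eqB hd hact x]; exact k1 hK x
      _ = 3 * K := by rw [sum_const, card_univ, Fintype.card_fin, smul_eq_mul]
  · exact (dif_nact hd hK hact).trans (Nat.mul_le_mul_right _ (by norm_num))

/-- counting the pairs differing at each coordinate -/
theorem dif_sum {S : Finset ι} (hA : Sup S A) (hB : Sup S B)
    (hd : ∀ a ∈ A, ∀ b ∈ B, hammingDist a b = δ) :
    δ * (A.card * B.card) = ∑ j ∈ S, dif A B j := by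
  have h1 : ∑ p ∈ A ×ˢ B, hammingDist p.1 p.2 = δ * (A.card * B.card) := by
    rw [Finset.sum_congr rfl (g := fun _ => δ)]
    · rw [Finset.sum_const, Finset.card_product, smul_eq_mul, mul_comm]
    · intro p hp
      rw [Finset.mem_product] at hp
      exact hd p.1 hp.1 p.2 hp.2
  rw [← h1]
  rw [Finset.sum_congr rfl (g := fun p => ∑ j ∈ S, if p.1 j ≠ p.2 j then 1 else 0)]
  · rw [Finset.sum_comm]
    refine Finset.sum_congr rfl fun j _ => ?_
    unfold dif
    rw [Finset.card_filter]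
  · intro p hp
    rw [Finset.mem_product] at hp
    exact CR_ham 2 S A B hA hB p.1 p.2 hp.1 hp.2

end

open Polynomial in
/-- coefficient of `z ^ d` in `(1 + 3 z) ^ r (1 + 2 z) ^ s` -/
noncomputable def Phi (r s d : ℕ) : ℕ := (((1 + 3 * X) ^ r * (1 + 2 * X) ^ s : ℕ[X])).coeff d

open Polynomial in
theorem Phi_rec (r s d : ℕ) :
    (d + 1) * Phi r s (d + 1) = r * (3 * Phi (r - 1) s d) + s * (2 * Phi r (s - 1) d) := by
  have h := coeff_derivative ((1 + 3 * X) ^ r * (1 + 2 * X) ^ s : ℕ[X]) d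
  have e3 : derivative (1 + 3 * X : ℕ[X]) = 3 := by simp
  have e2 : derivative (1 + 2 * X : ℕ[X]) = 2 := by simp
  rw [derivative_mul, derivative_pow, derivative_pow, e3, e2] at h
  have h1 : ((C (r : ℕ) * (1 + 3 * X) ^ (r - 1) * 3 * (1 + 2 * X) ^ s +
      (1 + 3 * X) ^ r * (C (s : ℕ) * (1 + 2 * X) ^ (s - 1) * 2) : ℕ[X])) =
      C (r * 3) * ((1 + 3 * X) ^ (r - 1) * (1 + 2 * X) ^ s) +
      C (s * 2) * ((1 + 3 * X) ^ r * (1 + 2 * X) ^ (s - 1)) := by
    have c3 : (C (3 : ℕ) : ℕ[X]) = 3 := rfl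
    have c2 : (C (2 : ℕ) : ℕ[X]) = 2 := rfl
    rw [C_mul, C_mul, c3, c2]
    ring
  unfold Phi
  have h2 : (((C (r : ℕ) * (1 + 3 * X) ^ (r - 1) * 3 * (1 + 2 * X) ^ s +
      (1 + 3 * X) ^ r * (C (s : ℕ) * (1 + 2 * X) ^ (s - 1) * 2) : ℕ[X]))).coeff d =
      ((1 + 3 * X) ^ r * (1 + 2 * X) ^ s : ℕ[X]).coeff (d + 1) * (d + 1) := by
    simpa using h
  rw [h1, coeff_add, coeff_C_mul, coeff_C_mul] at h2
  rw [mul_comm (d + 1), ← h2]
  ring

theorem nf_sub {A B : Finset (ι → Fin (2 + 1))} {j i : ι} (hij : i ≠ j) (P R : Finset (Fin (2 + 1)))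
    (h : NonFull A B i) : NonFull ((A.filter (fun a => a j ∈ P)).image (er j))
      ((B.filter (fun a => a j ∈ R)).image (er j)) i := by
  obtain ⟨z, hz⟩ := h
  refine ⟨z, hz.imp ?_ ?_⟩
  · intro hz a' ha'
    obtain ⟨a, ha, rfl⟩ := mem_image.1 ha'
    have : er j a i = a i := by simp [er, hij]
    rw [this]
    exact hz a (mem_filter.1 ha).1
  · intro hz a' ha'
    obtain ⟨a, ha, rfl⟩ := mem_image.1 ha'
    have : er j a i = a i := by simp [er, hij]
    rw [this]
    exact hz a (mem_filter.1 ha).1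

theorem mainF (F : Finset ι) : ∀ (n : ℕ) (S : Finset ι), S.card = n → ∀ (δ : ℕ)
    (A B : Finset (ι → Fin (2 + 1))), Sup S A → Sup S B →
    (∀ a ∈ A, ∀ b ∈ B, hammingDist a b = δ) → (∀ j ∈ S, j ∉ F → NonFull A B j) →
    A.card * B.card ≤ Phi (S ∩ F).card (S \ F).card δ := by
  intro n
  induction n using Nat.strong_induction_on with
  | _ n ih =>
    intro S hS δ A B hA hB hd hF
    rcases Nat.eq_zero_or_pos (A.card * B.card) with hz | hAB
    · omega
    obtain ⟨a, ha⟩ := Finset.card_pos.1 (Nat.pos_of_mul_pos_right hAB)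
    obtain ⟨b, hb⟩ := Finset.card_pos.1 (Nat.pos_of_mul_pos_left hAB)
    rcases Nat.eq_zero_or_pos δ with h0 | hpos
    · subst h0
      have hAe : ∀ x ∈ A, x = b := fun x hx => hammingDist_eq_zero.1 (hd x hx b hb)
      have hBe : ∀ y ∈ B, y = a := fun y hy => (hammingDist_eq_zero.1 (hd a ha y hy)).symm
      have hA1 : A.card ≤ 1 := Finset.card_le_one.2 fun x hx y hy => by rw [hAe x hx, hAe y hy]
      have hB1 : B.card ≤ 1 := Finset.card_le_one.2 fun x hx y hy => by rw [hBe x hx, hBe y hy]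
      have h4 : A.card * B.card ≤ 1 * 1 := Nat.mul_le_mul hA1 hB1
      have h5 : Phi (S ∩ F).card (S \ F).card 0 = 1 := by
        unfold Phi
        rw [Polynomial.coeff_zero_eq_eval_zero]
        simp
      rw [h5]
      simpa using h4
    · obtain ⟨δ', rfl⟩ : ∃ δ', δ = δ' + 1 := ⟨δ - 1, by omega⟩
      set r := (S ∩ F).card with hr
      set s := (S \ F).card with hs
      have hKall : ∀ j ∈ S, ∀ P R : Finset (Fin (2 + 1)), Disjoint P R →
          pcnt A j P * pcnt B j R ≤ Phi ((S.erase j) ∩ F).card ((S.erase j) \ F).card δ' := by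
        intro j hj P R hPR
        have hn : 0 < n := by rw [← hS]; exact card_pos.2 ⟨j, hj⟩
        unfold pcnt
        refine ih (n - 1) (by omega) (S.erase j) (by rw [card_erase_of_mem hj, hS]) δ' _ _
          (SP_sup S A hA j P) (SP_sup S B hB j R) ?_ ?_
        · intro a' ha' b' hb'
          obtain ⟨a, ha, rfl⟩ := Finset.mem_image.1 ha'
          obtain ⟨b, hb, rfl⟩ := Finset.mem_image.1 hb'
          rw [Finset.mem_filter] at ha hb
          have hab : a j ≠ b j := by
            intro h'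
            exact Finset.disjoint_left.1 hPR ha.2 (h' ▸ hb.2)
          have h1 := (t_dist ι 2 j a b).1 hab
          rw [hd a ha.1 b hb.1] at h1
          omega
        · intro i hi hiF
          obtain ⟨hij, hiS⟩ := mem_erase.1 hi
          exact nf_sub hij P R (hF i hiS hiF)
      have hD1 : ∀ j ∈ S ∩ F, dif A B j ≤ 3 * Phi (r - 1) s δ' := by
        intro j hj
        obtain ⟨hjS, hjF⟩ := mem_inter.1 hj
        have h1 := dif_le3 hd (hKall j hjS)
        have e1 : ((S.erase j) ∩ F).card = r - 1 := by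
          rw [erase_inter, card_erase_of_mem hj]
        have e2 : ((S.erase j) \ F) = S \ F := by
          ext i
          simp only [mem_sdiff, mem_erase]
          constructor
          · exact fun h => ⟨h.1.2, h.2⟩
          · exact fun h => ⟨⟨fun e => h.2 (e ▸ hjF), h.1⟩, h.2⟩
        rwa [e1, e2] at h1
      have hD2 : ∀ j ∈ S \ F, dif A B j ≤ 2 * Phi r (s - 1) δ' := by
        intro j hj
        obtain ⟨hjS, hjF⟩ := mem_sdiff.1 hj
        have h1 := dif_le2 hd (hKall j hjS) (hF j hjS hjF)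
        have e1 : ((S.erase j) \ F).card = s - 1 := by
          rw [erase_sdiff_comm, card_erase_of_mem hj]
        have e2 : ((S.erase j) ∩ F) = S ∩ F := by
          ext i
          simp only [mem_inter, mem_erase]
          constructor
          · exact fun h => ⟨h.1.2, h.2⟩
          · exact fun h => ⟨⟨fun e => hjF (e ▸ h.2), h.1⟩, h.2⟩
        rwa [e1, e2] at h1
      have key : (δ' + 1) * (A.card * B.card) ≤ (δ' + 1) * Phi r s (δ' + 1) := by
        rw [dif_sum hA hB hd, Phi_rec]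
        have hsplit : ∑ j ∈ S, dif A B j = ∑ j ∈ S ∩ F, dif A B j + ∑ j ∈ S \ F, dif A B j := by
          have hdj : Disjoint (S ∩ F) (S \ F) := by
            rw [disjoint_left]
            intro i hi hi'
            exact (mem_sdiff.1 hi').2 (mem_inter.1 hi).2
          rw [← sum_union hdj]
          congr 1
          ext i
          simp only [mem_union, mem_inter, mem_sdiff]
          tauto
        rw [hsplit]
        refine add_le_add ?_ ?_
        · calc ∑ j ∈ S ∩ F, dif A B j ≤ ∑ _j ∈ S ∩ F, 3 * Phi (r - 1) s δ' := sum_le_sum hD1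
            _ = r * (3 * Phi (r - 1) s δ') := by rw [sum_const, smul_eq_mul]
        · calc ∑ j ∈ S \ F, dif A B j ≤ ∑ _j ∈ S \ F, 2 * Phi r (s - 1) δ' := sum_le_sum hD2
            _ = s * (2 * Phi r (s - 1) δ') := by rw [sum_const, smul_eq_mul]
      exact Nat.le_of_mul_le_mul_left key (Nat.succ_pos δ')

end U931Q3
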