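import Pool.Agent.U931.Q3.Three
import Pool.Agent.U931.Q3.Full

/-! The bound without full coordinates. -/

namespace U931Q3

theorem Phi_zero (r s : ℕ) : Phi r s 0 = 1 := by
  unfold Phi
  rw [Polynomial.coeff_zero_eq_eval_zero]
  simp

theorem Phi_nofull : ∀ d n : ℕ, Phi 0 n d = 2 ^ d * n.choose d := by
  intro d
  induction d with
  | zero => intro n; rw [Phi_zero]; simp
  | succ d ih =>
    intro n
    have h := Phi_rec 0 n d
    rw [ih (n - 1), Nat.zero_mul, Nat.zero_add] at h
    refine Nat.eq_of_mul_eq_mul_left (Nat.succ_pos d) (h.trans ?_)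
    rcases n with _ | n
    · simp
    · have h2 := numN n d
      rw [Nat.add_sub_cancel]
      calc (n + 1) * (2 * (2 ^ d * n.choose d)) = (n + 1) * 2 * (2 ^ d * n.choose d) := by ring
        _ = _ := h2

end U931Q3
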