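import Pool.Agent.U931.Q3.Full

/-! One coordinate which separates more than three quarters of the pairs. -/

namespace U931Q3
open Finset H825CD

/-- both sequences have their maximum at the first index -/
theorem core1 (a1 a2 a3 b1 b2 b3 : ℝ) (h2 : 0 ≤ a2) (h3 : 0 ≤ a3) (g2 : 0 ≤ b2) (g3 : 0 ≤ b3)
    (ha : a1 + a2 + a3 = 1) (hb : b1 + b2 + b3 = 1) (o1 : a2 ≤ a1) (o2 : a3 ≤ a1)
    (p1 : b2 ≤ b1) (p2 : b3 ≤ b1) : 1 / 4 ≤ a1 * b1 + a2 * b2 + a3 * b3 := by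
  have e : a1 * b1 + a2 * b2 + a3 * b3 - 1 / 4 =
      a1 * b1 + a2 * b2 + a3 * b3 - (a1 + a2 + a3) * (b1 + b2 + b3) / 4 := by
    rw [ha, hb]; ring
  nlinarith [mul_nonneg h2 g2, mul_nonneg h2 g3, mul_nonneg h3 g2, mul_nonneg h3 g3,
    mul_nonneg (sub_nonneg.2 o1) (sub_nonneg.2 p1), mul_nonneg (sub_nonneg.2 o1) (sub_nonneg.2 p2),
    mul_nonneg (sub_nonneg.2 o2) (sub_nonneg.2 p1), mul_nonneg (sub_nonneg.2 o2) (sub_nonneg.2 p2),
    mul_nonneg (sub_nonneg.2 o1) g2, mul_nonneg (sub_nonneg.2 o1) g3,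
    mul_nonneg (sub_nonneg.2 o2) g2, mul_nonneg (sub_nonneg.2 o2) g3,
    mul_nonneg h2 (sub_nonneg.2 p1), mul_nonneg h2 (sub_nonneg.2 p2),
    mul_nonneg h3 (sub_nonneg.2 p1), mul_nonneg h3 (sub_nonneg.2 p2)]

theorem core2a (a1 a2 a3 b1 b2 b3 : ℝ) (o1 : a2 ≤ a1) (p2 : b2 ≤ b3)
    (h2 : 0 ≤ a2) (ha : a1 + a2 + a3 = 1) (hb : b1 + b2 + b3 = 1) (a13 : 1 / 3 ≤ a1)
    (b33 : 1 / 3 ≤ b3) (hs : a1 + b3 ≤ 1) (hb2 : b3 ≤ 1 / 2) :
    1 / 4 ≤ a1 * b1 + a2 * b2 + a3 * b3 := by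
  have e3 : a3 = 1 - a1 - a2 := by linarith
  have e2 : b2 = 1 - b1 - b3 := by linarith
  have k1 : 0 ≤ (a1 - a2) * (b1 - (1 - 2 * b3)) :=
    mul_nonneg (by linarith) (by linarith)
  have k2 : a1 + b3 - 3 * (a1 * b3) ≤ a1 * b1 + a2 * b2 + a3 * b3 := by
    rw [e3, e2]
    nlinarith [k1]
  have k3 : 4 * (a1 * b3) ≤ (a1 + b3) ^ 2 := by nlinarith [sq_nonneg (a1 - b3)]
  have k4 : 0 ≤ (1 - (a1 + b3)) * (3 * (a1 + b3) - 1) :=
    mul_nonneg (by linarith) (by linarith)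
  nlinarith [k2, k3, k4]

/-- the maxima are at different indices -/
theorem core2 (a1 a2 a3 b1 b2 b3 m : ℝ) (h2 : 0 ≤ a2) (g2 : 0 ≤ b2)
    (ha : a1 + a2 + a3 = 1) (hb : b1 + b2 + b3 = 1) (o1 : a2 ≤ a1) (o2 : a3 ≤ a1)
    (p1 : b1 ≤ b3) (p2 : b2 ≤ b3) (t1 : a1 * (1 - b1) ≤ m) (s3 : b3 * (1 - a3) ≤ m)
    (hm : 2 * m < 1 - (a1 * b1 + a2 * b2 + a3 * b3)) :
    1 / 4 ≤ a1 * b1 + a2 * b2 + a3 * b3 := by
  have a13 : 1 / 3 ≤ a1 := by linarith
  have b33 : 1 / 3 ≤ b3 := by linarith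
  have hs : a1 + b3 ≤ 1 := by nlinarith [mul_nonneg h2 g2]
  rcases le_total b3 (1 / 2) with h | h
  · exact core2a a1 a2 a3 b1 b2 b3 o1 p2 h2 ha hb a13 b33 hs h
  · have := core2a b3 b2 b1 a3 a2 a1 p2 o1 g2 (by linarith) (by linarith) b33 a13
      (by linarith) (by linarith)
    nlinarith [this]

theorem max3 (a1 a2 a3 : ℝ) : (a2 ≤ a1 ∧ a3 ≤ a1) ∨ (a1 ≤ a2 ∧ a3 ≤ a2) ∨ (a1 ≤ a3 ∧ a2 ≤ a3) := by
  rcases le_total a1 a2 with h1 | h1 <;> rcases le_total a1 a3 with h2 | h2 <;>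
    rcases le_total a2 a3 with h3 | h3
  · exact Or.inr (Or.inr ⟨h2, h3⟩)
  · exact Or.inr (Or.inl ⟨h1, h3⟩)
  · exact Or.inr (Or.inr ⟨by linarith, h3⟩)
  · exact Or.inr (Or.inl ⟨h1, h3⟩)
  · exact Or.inr (Or.inr ⟨h2, h3⟩)
  · exact Or.inl ⟨h1, by linarith⟩
  · exact Or.inl ⟨h1, h2⟩
  · exact Or.inl ⟨h1, h2⟩

theorem G6 (a1 a2 a3 b1 b2 b3 m D : ℝ) (h1 : 0 ≤ a1) (h2 : 0 ≤ a2) (h3 : 0 ≤ a3)
    (g1 : 0 ≤ b1) (g2 : 0 ≤ b2) (g3 : 0 ≤ b3) (ha : a1 + a2 + a3 = 1) (hb : b1 + b2 + b3 = 1)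
    (hD : D = 1 - (a1 * b1 + a2 * b2 + a3 * b3))
    (t1 : a1 * (1 - b1) ≤ m) (t2 : a2 * (1 - b2) ≤ m) (t3 : a3 * (1 - b3) ≤ m)
    (s1 : b1 * (1 - a1) ≤ m) (s2 : b2 * (1 - a2) ≤ m) (s3 : b3 * (1 - a3) ≤ m)
    (h : 3 / 4 < D) : D ≤ 2 * m := by
  by_contra hcon
  rw [not_le] at hcon
  have hm : 2 * m < 1 - (a1 * b1 + a2 * b2 + a3 * b3) := by linarith
  have key : 1 / 4 ≤ a1 * b1 + a2 * b2 + a3 * b3 := by
    rcases max3 a1 a2 a3 with ⟨o1, o2⟩ | ⟨o1, o2⟩ | ⟨o1, o2⟩ <;>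
      rcases max3 b1 b2 b3 with ⟨p1, p2⟩ | ⟨p1, p2⟩ | ⟨p1, p2⟩
    · exact core1 a1 a2 a3 b1 b2 b3 h2 h3 g2 g3 ha hb o1 o2 p1 p2
    · have := core2 a1 a3 a2 b1 b3 b2 m h3 g3 (by linarith) (by linarith) o2 o1 p1 p2 t1 s2
        (by linarith)
      linarith
    · have := core2 a1 a2 a3 b1 b2 b3 m h2 g2 (by linarith) (by linarith) o1 o2 p1 p2 t1 s3
        (by linarith)
      linarith
    · have := core2 a2 a3 a1 b2 b3 b1 m h3 g3 (by linarith) (by linarith) o2 o1 p1 p2 t2 s1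
        (by linarith)
      linarith
    · have := core1 a2 a1 a3 b2 b1 b3 h1 h3 g1 g3 (by linarith) (by linarith) o1 o2 p1 p2
      linarith
    · have := core2 a2 a1 a3 b2 b1 b3 m h1 g1 (by linarith) (by linarith) o1 o2 p2 p1 t2 s3
        (by linarith)
      linarith
    · have := core2 a3 a2 a1 b3 b2 b1 m h2 g2 (by linarith) (by linarith) o2 o1 p2 p1 t3 s1
        (by linarith)
      linarith
    · have := core2 a3 a1 a2 b3 b1 b2 m h1 g1 (by linarith) (by linarith) o1 o2 p2 p1 t3 s2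
        (by linarith)
      linarith
    · have := core1 a3 a1 a2 b3 b1 b2 h1 h2 g1 g2 (by linarith) (by linarith) o1 o2 p1 p2
      linarith
  linarith

variable {ι : Type} [Fintype ι] [DecidableEq ι]

theorem dif_large {δ K : ℕ} {A B : Finset (ι → Fin (2 + 1))} {j : ι}
    (hd : ∀ a ∈ A, ∀ b ∈ B, hammingDist a b = δ)
    (hK : ∀ P R : Finset (Fin (2 + 1)), Disjoint P R → pcnt A j P * pcnt B j R ≤ K)
    (h : 3 * (A.card * B.card) < 4 * dif A B j) : dif A B j ≤ 2 * K := by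
  by_cases hact : Act A B j
  · have hd' : ∀ b ∈ B, ∀ a ∈ A, hammingDist b a = δ := fun b hb a ha => by
      rw [hammingDist_comm]; exact hd a ha b hb
    have hA0 : 0 < A.card := by
      have := cnt_eq A j 0
      have := (hact 0).1
      omega
    have hB0 : 0 < B.card := by
      have := cnt_eq B j 0
      have := (hact 0).2
      omega
    have pa : (0 : ℝ) < A.card := by exact_mod_cast hA0
    have pb : (0 : ℝ) < B.card := by exact_mod_cast hB0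
    have e1 := CR_eq 2 A B j
    have e2 := Finset.card_filter_add_card_filter_not (s := A ×ˢ B) (fun p => p.1 j = p.2 j)
    have e3 : dif A B j = ((A ×ˢ B).filter (fun p => ¬ p.1 j = p.2 j)).card := rfl
    rw [e1, ← e3, Finset.card_product, Fin.sum_univ_three] at e2
    have e2' : (cnt A j {0} : ℝ) * cnt B j {0} + cnt A j {1} * cnt B j {1} +
        cnt A j {2} * cnt B j {2} + dif A B j = A.card * B.card := by exact_mod_cast e2
    have sA := cnt_sum hd j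
    have sB := cnt_sum hd' j
    rw [Fin.sum_univ_three] at sA sB
    have sA' : (cnt A j {0} : ℝ) + cnt A j {1} + cnt A j {2} = A.card := by exact_mod_cast sA
    have sB' : (cnt B j {0} : ℝ) + cnt B j {1} + cnt B j {2} = B.card := by exact_mod_cast sB
    have s1 : ∀ x, (cnt A j {x} : ℝ) / A.card * (1 - (cnt B j {x} : ℝ) / B.card) ≤
        (K : ℝ) / (A.card * B.card) := by
      intro x
      have h1 := k1 hK x
      rw [nz_eqB hd hact x] at h1
      have h2 : (cnt B j {x} : ℝ) + na B j x = B.card := by exact_mod_cast cnt_eq B j x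
      have h3 : (1 : ℝ) - (cnt B j {x} : ℝ) / B.card = na B j x / B.card := by
        field_simp; linarith
      have h4 : (cnt A j {x} : ℝ) * na B j x ≤ K := by exact_mod_cast h1
      rw [h3, div_mul_div_comm]
      exact div_le_div_of_nonneg_right h4 (by positivity)
    have s2 : ∀ x, (cnt B j {x} : ℝ) / B.card * (1 - (cnt A j {x} : ℝ) / A.card) ≤
        (K : ℝ) / (A.card * B.card) := by
      intro x
      have h1 := k1 (hKs hK) x
      rw [nz_eq hd hact x] at h1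
      have h2 : (cnt A j {x} : ℝ) + na A j x = A.card := by exact_mod_cast cnt_eq A j x
      have h3 : (1 : ℝ) - (cnt A j {x} : ℝ) / A.card = na A j x / A.card := by
        field_simp; linarith
      have h4 : (cnt B j {x} : ℝ) * na A j x ≤ K := by exact_mod_cast h1
      rw [h3, div_mul_div_comm, mul_comm (A.card : ℝ)]
      exact div_le_div_of_nonneg_right h4 (by positivity)
    have hD : (dif A B j : ℝ) / (A.card * B.card) = 1 -
        ((cnt A j {0} : ℝ) / A.card * ((cnt B j {0} : ℝ) / B.card) +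
        (cnt A j {1} : ℝ) / A.card * ((cnt B j {1} : ℝ) / B.card) +
        (cnt A j {2} : ℝ) / A.card * ((cnt B j {2} : ℝ) / B.card)) := by
      field_simp
      linarith
    have hlt : (3 : ℝ) / 4 < (dif A B j : ℝ) / (A.card * B.card) := by
      rw [lt_div_iff₀ (by positivity)]
      have : (3 : ℝ) * (A.card * B.card) < 4 * dif A B j := by exact_mod_cast h
      linarith
    have hfin := G6 _ _ _ _ _ _ ((K : ℝ) / (A.card * B.card)) _
      (by positivity) (by positivity) (by positivity) (by positivity) (by positivity)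
      (by positivity)
      (by rw [← add_div, ← add_div, sA']; exact div_self pa.ne')
      (by rw [← add_div, ← add_div, sB']; exact div_self pb.ne')
      hD (s1 0) (s1 1) (s1 2) (s2 0) (s2 1) (s2 2) hlt
    rw [← mul_div_assoc, div_le_div_iff_of_pos_right (by positivity)] at hfin
    exact_mod_cast hfin
  · exact dif_nact hd hK hact

end U931Q3
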