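import Pool.Agent.U931.Q3.Two

/-! Ternary constant distance code pairs with `9 δ ≤ 4 n`: the upper bound. -/

namespace U931Q3
open Finset H825CD

variable {ι : Type} [Fintype ι] [DecidableEq ι]

/-- the bound two coordinates down -/
def Down2 (S : Finset ι) (δ M : ℕ) : Prop :=
  ∀ j ∈ S, ∀ i ∈ S, i ≠ j → ∀ A' B' : Finset (ι → Fin (2 + 1)),
    Sup ((S.erase j).erase i) A' → Sup ((S.erase j).erase i) B' →
    (∀ a ∈ A', ∀ b ∈ B', hammingDist a b + 2 = δ) → 9 * (A'.card * B'.card) ≤ 2 * M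

section

variable {S : Finset ι} {δ M : ℕ} {A B : Finset (ι → Fin (2 + 1))} {j i : ι}

theorem SS9 (hC : Ctx S δ M A B) (h2 : Down2 S δ M) (hj : j ∈ S) (hi : i ∈ S) (hij : i ≠ j)
    (x y : Fin (2 + 1)) : 9 * (p00 A j i x y * z11 B j i x y) ≤ 2 * M := by
  have h1 := h2 j hj i hi hij
    ((A.filter (fun a => a j = x ∧ a i = y)).image (fun a => er i (er j a)))
    ((B.filter (fun a => a j ≠ x ∧ a i ≠ y)).image (fun a => er i (er j a)))
    (SS_sup hC.supA (Finset.filter_subset _ _) j i)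
    (SS_sup hC.supB (Finset.filter_subset _ _) j i) ?_
  · rw [SS_inj] at h1
    exact h1
  · intro a' ha' b' hb'
    obtain ⟨a, ha, rfl⟩ := Finset.mem_image.mp ha'
    obtain ⟨b, hb, rfl⟩ := Finset.mem_image.mp hb'
    rw [Finset.mem_filter] at ha hb
    have hd := hC.dist a ha.1 b hb.1
    have hj' : a j ≠ b j := by rw [ha.2.1]; exact fun h => hb.2.1 h.symm
    have e1 : er j a i = a i := by simp [er, hij]
    have e2 : er j b i = b i := by simp [er, hij]
    have hi' : er j a i ≠ er j b i := by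
      rw [e1, e2, ha.2.2]; exact fun h => hb.2.2 h.symm
    have s1 := (t_dist ι 2 j a b).1 hj'
    have s2 := (t_dist ι 2 i (er j a) (er j b)).1 hi'
    show hammingDist (er i (er j a)) (er i (er j b)) + 2 = δ
    omega

theorem a_small (hC : Ctx S δ M A B) (h2 : Down2 S δ M) (hj : j ∈ S) (hi : i ∈ S) (hij : i ≠ j)
    (aj : Act A B j) (ai : Act A B i) (x y : Fin (2 + 1)) (x2 : 3 * na B j x < B.card)
    (y2 : 3 * na B i y < B.card) (hA : Twin A j i x y) :
    3 * (na A j x * B.card) ≤ 2 * M := by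
  have hd' : ∀ b ∈ B, ∀ a ∈ A, hammingDist b a = δ := fun b hb a ha => by
    rw [hammingDist_comm]; exact hC.dist a ha b hb
  obtain ⟨a1, a2, a3⟩ := parts A j i x y
  obtain ⟨b1, b2, b3⟩ := parts B j i x y
  have n0 : n10 A j i x y = 0 := by
    unfold n10
    rw [card_eq_zero, filter_eq_empty_iff]
    intro a ha h
    exact h.1 ((hA a ha).2 h.2)
  have s := SS9 (t_symm ι 2 S δ M A B hC) h2 hj hi hij x y
  by_cases hB : Twin B j i x y
  · have m0 : n10 B j i x y = 0 := by
      unfold n10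
      rw [card_eq_zero, filter_eq_empty_iff]
      intro a ha h
      exact h.1 ((hB a ha).2 h.2)
    have m1 : n01 B j i x y = 0 := by
      unfold n01
      rw [card_eq_zero, filter_eq_empty_iff]
      intro a ha h
      exact h.2 ((hB a ha).1 h.1)
    have l := le11 hC.dist ai (j := j) x y
    have k : 2 * B.card ≤ 3 * p00 B j i x y := by omega
    calc 3 * (na A j x * B.card) = 3 * (n11 A j i x y * B.card) := by rw [a2, n0, zero_add]
      _ ≤ 3 * ((2 * z11 A j i x y) * B.card) :=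
          Nat.mul_le_mul_left _ (Nat.mul_le_mul_right _ l)
      _ = 3 * z11 A j i x y * (2 * B.card) := by ring
      _ ≤ 3 * z11 A j i x y * (3 * p00 B j i x y) := Nat.mul_le_mul_left _ k
      _ = 9 * (p00 B j i x y * z11 A j i x y) := by ring
      _ ≤ 2 * M := s
  · have e := inj11 hd' aj.symm ai.symm hij x y hB
    have k : B.card ≤ 3 * p00 B j i x y := by omega
    calc 3 * (na A j x * B.card) = 3 * z11 A j i x y * B.card := by
          rw [a2, n0, zero_add, e]; ring
      _ ≤ 3 * z11 A j i x y * (3 * p00 B j i x y) := Nat.mul_le_mul_left _ k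
      _ = 9 * (p00 B j i x y * z11 A j i x y) := by ring
      _ ≤ 2 * M := s

theorem twin_false (hC : Ctx S δ M A B) (h2 : Down2 S δ M) (hj : j ∈ S) (hi : i ∈ S)
    (hij : i ≠ j) (aj : Act A B j) (ai : Act A B i) (x y : Fin (2 + 1))
    (x2 : 3 * na B j x < B.card) (y2 : 3 * na B i y < B.card)
    (hcr : 2 * M + ∑ x : Fin (2 + 1), cnt A j {x} * cnt B j {x} < A.card * B.card)
    (hA : Twin A j i x y) : False := by
  have s := a_small hC h2 hj hi hij aj ai x y x2 y2 hA
  have e := t_E t_dist ι 2 S δ M A B hC j hj x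
  rw [nz_eqB hC.dist aj x] at e
  have c1 := cnt_eq A j x
  have c2 := cnt_eq B j x
  have h5 : cnt A j {x} * cnt B j {x} ≤ ∑ x : Fin (2 + 1), cnt A j {x} * cnt B j {x} :=
    single_le_sum (f := fun x => cnt A j {x} * cnt B j {x}) (fun _ _ => Nat.zero_le _)
      (mem_univ x)
  have e1 : A.card - na A j x = cnt A j {x} := by omega
  have e2 : B.card - na B j x = cnt B j {x} := by omega
  rw [e1, e2] at e
  rw [← c1, ← c2] at e hcr
  rw [← c2] at s
  nlinarith [e, s, hcr, h5]

theorem no_ctx (hC : Ctx S δ M A B) (h9 : 9 * M < 2 * (A.card * B.card))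
    (h2 : Down2 S δ M) : False := by
  obtain ⟨j, hj, hcr⟩ := t_crit ι 2 S δ M A B hC
  have aj := crit_act hC hj hcr
  obtain ⟨i, hi, hij, ai⟩ := partner3 hC.supA hC.dist aj
  obtain ⟨x, x1, x2⟩ := dom_coord hC h9 hj aj
  obtain ⟨y, y1, y2⟩ := dom_coord hC h9 hi ai
  by_cases hA : Twin A j i x y
  · exact twin_false hC h2 hj hi hij aj ai x y x2 y2 hcr hA
  · by_cases hB : Twin B j i x y
    · refine twin_false (t_symm ι 2 S δ M A B hC) h2 hj hi hij aj.symm ai.symm x y x1 y1 ?_ hB
      have : ∑ x : Fin (2 + 1), cnt B j {x} * cnt A j {x} =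
          ∑ x : Fin (2 + 1), cnt A j {x} * cnt B j {x} :=
        sum_congr rfl fun x _ => Nat.mul_comm _ _
      rw [this, Nat.mul_comm B.card]
      exact hcr
    · exact one_twin hC hj hi hij aj ai x y x1 x2 y1 y2 hA hB

end

/-- the recursion of `2 ^ δ * C(n, δ)` -/
theorem numN (n d : ℕ) :
    (n + 1) * 2 * (2 ^ d * n.choose d) = (d + 1) * (2 ^ (d + 1) * (n + 1).choose (d + 1)) := by
  have h5 : (n + 1) * n.choose d = (n + 1).choose (d + 1) * (d + 1) :=
    Nat.add_one_mul_choose_eq n d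
  calc (n + 1) * 2 * (2 ^ d * n.choose d) = 2 ^ (d + 1) * ((n + 1) * n.choose d) := by ring
    _ = (d + 1) * (2 ^ (d + 1) * (n + 1).choose (d + 1)) := by rw [h5]; ring

theorem num9 (n d : ℕ) (h : 9 * (d + 1) ≤ 4 * (n + 1)) :
    9 * (2 ^ d * n.choose d) ≤ 2 * (2 ^ (d + 1) * (n + 1).choose (d + 1)) := by
  have h1 := numN n d
  have h2 : (9 * (2 ^ d * n.choose d)) * (d + 1) ≤
      (2 * (2 ^ (d + 1) * (n + 1).choose (d + 1))) * (d + 1) := by
    calc (9 * (2 ^ d * n.choose d)) * (d + 1) = (9 * (d + 1)) * (2 ^ d * n.choose d) := by ring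
      _ ≤ (4 * (n + 1)) * (2 ^ d * n.choose d) := Nat.mul_le_mul_right _ h
      _ = 2 * ((n + 1) * 2 * (2 ^ d * n.choose d)) := by ring
      _ = (2 * (2 ^ (d + 1) * (n + 1).choose (d + 1))) * (d + 1) := by rw [h1]; ring
  exact Nat.le_of_mul_le_mul_right h2 (Nat.succ_pos d)

theorem main3 : ∀ (n : ℕ) (S : Finset ι), S.card = n → ∀ (δ : ℕ), 9 * δ ≤ 4 * n →
    ∀ (A B : Finset (ι → Fin (2 + 1))), Sup S A → Sup S B →
    (∀ a ∈ A, ∀ b ∈ B, hammingDist a b = δ) → A.card * B.card ≤ 2 ^ δ * n.choose δ := by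
  classical
  intro n
  induction n using Nat.strong_induction_on with
  | _ n ih =>
    intro S hS δ h9 A B hA hB hd
    by_contra hlt
    rw [not_le] at hlt
    have hAB : 0 < A.card * B.card := by omega
    obtain ⟨a, ha⟩ := Finset.card_pos.1 (Nat.pos_of_mul_pos_right hAB)
    obtain ⟨b, hb⟩ := Finset.card_pos.1 (Nat.pos_of_mul_pos_left hAB)
    rcases Nat.eq_zero_or_pos δ with h0 | hpos
    · subst h0
      have hAe : ∀ x ∈ A, x = b := fun x hx => hammingDist_eq_zero.1 (hd x hx b hb)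
      have hBe : ∀ y ∈ B, y = a := fun y hy => (hammingDist_eq_zero.1 (hd a ha y hy)).symm
      have hA1 : A.card ≤ 1 := Finset.card_le_one.2 fun x hx y hy => by rw [hAe x hx, hAe y hy]
      have hB1 : B.card ≤ 1 := Finset.card_le_one.2 fun x hx y hy => by rw [hBe x hx, hBe y hy]
      have h4 : A.card * B.card ≤ 1 * 1 := Nat.mul_le_mul hA1 hB1
      simp at hlt
      omega
    · obtain ⟨δ', rfl⟩ : ∃ δ', δ = δ' + 1 := ⟨δ - 1, by omega⟩
      obtain ⟨n', rfl⟩ : ∃ n', n = n' + 1 := ⟨n - 1, by omega⟩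
      obtain ⟨P, hP, hmax⟩ := Finset.exists_max_image
        (Finset.univ.filter fun P : Finset (ι → Fin (2 + 1)) × Finset (ι → Fin (2 + 1)) =>
          Sup S P.1 ∧ Sup S P.2 ∧ ∀ a ∈ P.1, ∀ b ∈ P.2, hammingDist a b = δ' + 1)
        (fun P => P.1.card * P.2.card)
        ⟨(A, B), Finset.mem_filter.2 ⟨Finset.mem_univ _, hA, hB, hd⟩⟩
      obtain ⟨-, hP1, hP2, hP3⟩ := Finset.mem_filter.1 hP
      have hle : A.card * B.card ≤ P.1.card * P.2.card :=
        hmax (A, B) (Finset.mem_filter.2 ⟨Finset.mem_univ _, hA, hB, hd⟩)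
      have f1 := num9 n' δ' h9
      have f2 := numN n' δ'
      have hdown : Down2 S (δ' + 1) (2 ^ δ' * n'.choose δ') := by
        intro j hj i hi hij A' B' hA' hB' hd'
        rcases A'.eq_empty_or_nonempty with hAe | ⟨a', ha'⟩
        · simp [hAe]
        rcases B'.eq_empty_or_nonempty with hBe | ⟨b', hb'⟩
        · simp [hBe]
        have hd0 := hd' a' ha' b' hb'
        obtain ⟨δ'', rfl⟩ : ∃ δ'', δ' = δ'' + 1 := ⟨δ' - 1, by omega⟩
        obtain ⟨n'', rfl⟩ : ∃ n'', n' = n'' + 1 := ⟨n' - 1, by omega⟩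
        have hc : ((S.erase j).erase i).card = n'' := by
          rw [Finset.card_erase_of_mem (Finset.mem_erase.2 ⟨hij, hi⟩),
            Finset.card_erase_of_mem hj, hS]
          omega
        have h5 := ih n'' (by omega) ((S.erase j).erase i) hc δ'' (by omega) A' B' hA' hB'
          fun a ha b hb => by
            have := hd' a ha b hb
            omega
        exact (Nat.mul_le_mul_left _ h5).trans (num9 n'' δ'' (by omega))
      refine no_ctx (S := S) (δ := δ' + 1) (M := 2 ^ δ' * n'.choose δ') (A := P.1) (B := P.2)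
        { supA := hP1
          supB := hP2
          dist := hP3
          max := ?_
          ih1 := ?_
          ih2 := ?_
          big := ?_
          crit := ?_ } (by omega) hdown
      · intro A' B' hA' hB' hd'
        exact hmax (A', B') (Finset.mem_filter.2 ⟨Finset.mem_univ _, hA', hB', hd'⟩)
      · intro j hj A' B' hA' hB' hd'
        refine ih n' (by omega) (S.erase j) ?_ δ' (by omega) A' B' hA' hB' fun a ha b hb => ?_
        · rw [Finset.card_erase_of_mem hj, hS, Nat.add_sub_cancel]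
        · exact Nat.succ_injective (hd' a ha b hb)
      · intro j hj i hi hij A' B' hA' hB' hd'
        have h7 := hdown j hj i hi hij A' B' hA' hB' hd'
        have h8 : qb 2 = 2 := rfl
        rw [h8]
        omega
      · have h8 : qb 2 = 2 := rfl
        rw [h8]
        omega
      · rw [hS, f2]
        exact Nat.mul_lt_mul_of_pos_left (by omega) (by omega)

end U931Q3
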