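import Pool.Agent.U931.Q3.LargeA
import Pool.Agent.U931.Q3.Three
import Pool.Agent.Results.MP_990a44_co.SqrtFactor

/-! Ternary constant distance code pairs: large distances. -/

namespace U931Q3
open Finset H825CD

variable {ι : Type} [Fintype ι] [DecidableEq ι]

/-- restriction of words to a coordinate set -/
def rst {m : ℕ} {S : Finset ι} (e : Fin m ≃ S) (a : ι → Fin (2 + 1)) : Fin m → Fin 3 :=
  fun i => a (e i)

theorem rst_dist {m : ℕ} {S : Finset ι} (e : Fin m ≃ S) {A B : Finset (ι → Fin (2 + 1))}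
    (hA : Sup S A) (hB : Sup S B) {a b : ι → Fin (2 + 1)} (ha : a ∈ A) (hb : b ∈ B) :
    hammingDist (rst e a) (rst e b) = hammingDist a b := by
  rw [CR_ham 2 S A B hA hB a b ha hb]
  have h1 : hammingDist (rst e a) (rst e b) =
      ∑ i : Fin m, if a (e i) ≠ b (e i) then 1 else 0 := by
    rw [← Finset.card_filter]
    rfl
  rw [h1, Equiv.sum_comp e (fun x : S => if a x ≠ b x then 1 else 0)]
  exact Finset.sum_coe_sort S (fun x => if a x ≠ b x then 1 else 0)

theorem rst_inj {m : ℕ} {S : Finset ι} (e : Fin m ≃ S) {A : Finset (ι → Fin (2 + 1))}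
    (hA : Sup S A) : (A.image (rst e)).card = A.card := by
  apply card_image_of_injOn
  intro a ha b hb hab
  funext j
  by_cases hj : j ∈ S
  · have h := congrFun hab (e.symm ⟨j, hj⟩)
    unfold rst at h
    rwa [Equiv.apply_symm_apply] at h
  · rw [hA a ha j hj, hA b hb j hj]

open Pool.Agent.Results.MP_990a44_co.SqrtFactor in
theorem base_bound {m δ : ℕ} (hδ : δ ≤ m) {S : Finset ι} (hS : S.card = m)
    {A B : Finset (ι → Fin (2 + 1))} (hA : Sup S A) (hB : Sup S B)
    (hd : ∀ a ∈ A, ∀ b ∈ B, hammingDist a b = δ) :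
    (A.card * B.card : ℝ) ≤ √(3 * m + 1) * (2 ^ δ * m.choose δ : ℕ) := by
  set e : Fin m ≃ S := (S.equivFinOfCardEq hS).symm with he
  have h := star_bound (q := 3) (n := m) (by norm_num) hδ (by simp [qbar]; omega)
    (A.image (rst e)) (B.image (rst e)) (by
      intro a' ha' b' hb'
      obtain ⟨a, ha, rfl⟩ := mem_image.1 ha'
      obtain ⟨b, hb, rfl⟩ := mem_image.1 hb'
      rw [rst_dist e hA hB ha hb]
      exact hd a ha b hb)
  rw [rst_inj e hA, rst_inj e hB] at h
  simpa using h

theorem large (k : ℕ) (c : ℝ) (hc : 0 ≤ c)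
    (hbase : ∀ S : Finset ι, S.card = 4 * k → ∀ A B : Finset (ι → Fin (2 + 1)), Sup S A →
      Sup S B → (∀ a ∈ A, ∀ b ∈ B, hammingDist a b = 3 * k) →
      (A.card * B.card : ℝ) ≤ c * (2 ^ (3 * k) * (4 * k).choose (3 * k) : ℕ)) :
    ∀ (t : ℕ) (S : Finset ι), S.card = 4 * k + t → ∀ A B : Finset (ι → Fin (2 + 1)), Sup S A →
      Sup S B → (∀ a ∈ A, ∀ b ∈ B, hammingDist a b = 3 * k + t) →
      (A.card * B.card : ℝ) ≤ c * (2 ^ (3 * k + t) * (4 * k + t).choose (3 * k + t) : ℕ) := by
  intro t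
  induction t with
  | zero =>
    intro S hS A B hA hB hd
    exact hbase S (by simpa using hS) A B hA hB (by simpa using hd)
  | succ t ih =>
    intro S hS A B hA hB hd
    set N' : ℕ := 2 ^ (3 * k + t) * (4 * k + t).choose (3 * k + t) with hN'
    have hnum := numN (4 * k + t) (3 * k + t)
    rw [← hN'] at hnum
    have e1 : 3 * k + (t + 1) = 3 * k + t + 1 := by ring
    have e2 : 4 * k + (t + 1) = 4 * k + t + 1 := by ring
    rw [e1, e2]
    rw [e1] at hd
    rw [e2] at hS
    set N : ℕ := 2 ^ (3 * k + t + 1) * (4 * k + t + 1).choose (3 * k + t + 1) with hN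
    rcases Nat.eq_zero_or_pos (A.card * B.card) with hz | hP
    · have : (A.card * B.card : ℝ) = 0 := by exact_mod_cast hz
      rw [this]
      positivity
    set K : ℕ := ⌊c * (N' : ℝ)⌋₊ with hKdef
    have hKr : (K : ℝ) ≤ c * N' := Nat.floor_le (by positivity)
    have hK : ∀ j ∈ S, ∀ P R : Finset (Fin (2 + 1)), Disjoint P R →
        pcnt A j P * pcnt B j R ≤ K := by
      intro j hj P R hPR
      apply Nat.le_floor
      unfold pcnt
      have h := ih (S.erase j) (by rw [card_erase_of_mem hj, hS]; rfl) _ _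
        (SP_sup S A hA j P) (SP_sup S B hB j R) (by
          intro a' ha' b' hb'
          obtain ⟨a, ha, rfl⟩ := Finset.mem_image.1 ha'
          obtain ⟨b, hb, rfl⟩ := Finset.mem_image.1 hb'
          rw [Finset.mem_filter] at ha hb
          have hab : a j ≠ b j := by
            intro h'
            exact Finset.disjoint_left.1 hPR ha.2 (h' ▸ hb.2)
          have h1 := (t_dist ι 2 j a b).1 hab
          rw [hd a ha.1 b hb.1] at h1
          omega)
      push_cast
      exact h
    have hsum := dif_sum hA hB hd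
    have hj : ∃ j ∈ S, (3 * k + t + 1) * (A.card * B.card) ≤ (4 * k + t + 1) * dif A B j := by
      by_contra hcon
      push Not at hcon
      have hne : S.Nonempty := card_pos.1 (by omega)
      have h1 := sum_lt_sum_of_nonempty hne hcon
      rw [← mul_sum, ← hsum, sum_const, hS, smul_eq_mul] at h1
      exact lt_irrefl _ h1
    obtain ⟨j, hjS, hj⟩ := hj
    have h34 : 3 * (A.card * B.card) < 4 * dif A B j := by
      by_contra hcon
      rw [not_lt] at hcon
      have h1 : (4 * k + t + 1) * (4 * dif A B j) ≤ (4 * k + t + 1) * (3 * (A.card * B.card)) :=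
        Nat.mul_le_mul_left _ hcon
      nlinarith [h1, hj, hP]
    have h2 := dif_large hd (hK j hjS) h34
    have h3 : (3 * k + t + 1) * (A.card * B.card) ≤ (4 * k + t + 1) * 2 * K := by
      calc (3 * k + t + 1) * (A.card * B.card) ≤ (4 * k + t + 1) * dif A B j := hj
        _ ≤ (4 * k + t + 1) * (2 * K) := Nat.mul_le_mul_left _ h2
        _ = (4 * k + t + 1) * 2 * K := by ring
    have h4 : ((3 * k + t + 1 : ℕ) : ℝ) * (A.card * B.card) ≤
        ((4 * k + t + 1 : ℕ) : ℝ) * 2 * K := by exact_mod_cast h3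
    have h5 : ((4 * k + t + 1 : ℕ) : ℝ) * 2 * N' = ((3 * k + t + 1 : ℕ) : ℝ) * N := by
      exact_mod_cast hnum
    have h6 : ((3 * k + t + 1 : ℕ) : ℝ) * (A.card * B.card) ≤
        ((3 * k + t + 1 : ℕ) : ℝ) * (c * N) := by
      calc ((3 * k + t + 1 : ℕ) : ℝ) * (A.card * B.card) ≤
            ((4 * k + t + 1 : ℕ) : ℝ) * 2 * K := h4
        _ ≤ ((4 * k + t + 1 : ℕ) : ℝ) * 2 * (c * N') := by gcongr
        _ = c * (((4 * k + t + 1 : ℕ) : ℝ) * 2 * N') := by ring
        _ = ((3 * k + t + 1 : ℕ) : ℝ) * (c * N) := by rw [h5]; ring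
    exact le_of_mul_le_mul_left h6 (by positivity)

end U931Q3
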