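import Pool.Agent.H825R2.CD.DI
import Pool.Agent.H825R2.CD.SY
import Pool.Agent.H825R2.CD.SP
import Pool.Agent.H825R2.CD.ST
import Pool.Agent.H825R2.CD.CR
import Pool.Agent.H825R2.CD.FI
import Pool.Agent.H825R2.CD.S1
import Pool.Agent.H825R2.CD.EE

/-! Ternary constant distance code pairs: facts at one coordinate. -/

namespace U931Q3
open Finset H825CD

variable {ι : Type} [Fintype ι] [DecidableEq ι]

/-- both sets use at least two letters at `j` -/
def Act (A B : Finset (ι → Fin (2 + 1))) (j : ι) : Prop :=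
  ∀ y : Fin (2 + 1), na A j y ≠ 0 ∧ na B j y ≠ 0

omit [Fintype ι] [DecidableEq ι] in
theorem Act.symm {A B : Finset (ι → Fin (2 + 1))} {j : ι} (h : Act A B j) : Act B A j :=
  fun y => ⟨(h y).2, (h y).1⟩

theorem four3 (u v w z : Fin (2 + 1)) (h1 : u ≠ v) (h2 : u ≠ w) (h3 : u ≠ z) (h4 : v ≠ w)
    (h5 : v ≠ z) (h6 : w ≠ z) : False := by
  have e1 := u.isLt
  have e2 := v.isLt
  have e3 := w.isLt
  have e4 := z.isLt
  simp only [ne_eq, Fin.ext_iff] at h1 h2 h3 h4 h5 h6
  omega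

theorem inj_A {δ : ℕ} {A B : Finset (ι → Fin (2 + 1))}
    (hd : ∀ a ∈ A, ∀ b ∈ B, hammingDist a b = δ) {j : ι} (hj : Act A B j) :
    ∀ a ∈ A, ∀ a' ∈ A, er j a = er j a' → a = a' := by
  intro a ha a' ha' he
  by_contra hne
  have hjne : a j ≠ a' j := fun h => hne (FI_inj j a a' he h)
  have h1 := FI_notused t_dist ι 2 δ A B hd j a a' ha ha' he hjne
  have h2 := FI_notused t_dist ι 2 δ A B hd j a' a ha' ha he.symm (Ne.symm hjne)
  obtain ⟨b, hb⟩ := card_pos.1 (Nat.pos_of_ne_zero (hj 0).2)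
  obtain ⟨hbB, -⟩ := mem_filter.1 hb
  obtain ⟨b', hb'⟩ := card_pos.1 (Nat.pos_of_ne_zero (hj (b j)).2)
  obtain ⟨hbB', hbj⟩ := mem_filter.1 hb'
  have e1 : a j ≠ b j := fun h => h1 (mem_image.2 ⟨b, hbB, h.symm⟩)
  have e2 : a j ≠ b' j := fun h => h1 (mem_image.2 ⟨b', hbB', h.symm⟩)
  have e3 : a' j ≠ b j := fun h => h2 (mem_image.2 ⟨b, hbB, h.symm⟩)
  have e4 : a' j ≠ b' j := fun h => h2 (mem_image.2 ⟨b', hbB', h.symm⟩)
  exact four3 _ _ _ _ hjne e1 e2 e3 e4 (Ne.symm hbj)

theorem inj_B {δ : ℕ} {A B : Finset (ι → Fin (2 + 1))}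
    (hd : ∀ a ∈ A, ∀ b ∈ B, hammingDist a b = δ) {j : ι} (hj : Act A B j) :
    ∀ b ∈ B, ∀ b' ∈ B, er j b = er j b' → b = b' :=
  inj_A (δ := δ) (fun b hb a ha => by rw [hammingDist_comm]; exact hd a ha b hb) hj.symm

theorem nz_eq {δ : ℕ} {A B : Finset (ι → Fin (2 + 1))}
    (hd : ∀ a ∈ A, ∀ b ∈ B, hammingDist a b = δ) {j : ι} (hj : Act A B j) (x : Fin (2 + 1)) :
    nz A j x = na A j x := by
  unfold nz na
  apply card_image_of_injOn
  intro a ha a' ha' he
  exact inj_A hd hj a (mem_filter.1 (mem_coe.1 ha)).1 a' (mem_filter.1 (mem_coe.1 ha')).1 he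

theorem nz_eqB {δ : ℕ} {A B : Finset (ι → Fin (2 + 1))}
    (hd : ∀ a ∈ A, ∀ b ∈ B, hammingDist a b = δ) {j : ι} (hj : Act A B j) (x : Fin (2 + 1)) :
    nz B j x = na B j x := by
  unfold nz na
  apply card_image_of_injOn
  intro a ha a' ha' he
  exact inj_B hd hj a (mem_filter.1 (mem_coe.1 ha)).1 a' (mem_filter.1 (mem_coe.1 ha')).1 he

theorem na_le2 (A : Finset (ι → Fin (2 + 1))) (j : ι) (x : Fin (2 + 1)) :
    na A j x ≤ 2 * nz A j x := by
  unfold na nz
  apply card_le_mul_card_image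
  intro c _
  have h2 : (univ.erase x : Finset (Fin (2 + 1))).card = 2 := by
    rw [card_erase_of_mem (mem_univ x), card_univ, Fintype.card_fin]
  refine le_trans (card_le_card_of_injOn (t := univ.erase x) (fun a => a j) ?_ ?_) h2.le
  · intro a ha
    have ha0 := mem_filter.1 (mem_filter.1 (mem_coe.1 ha)).1
    exact mem_coe.2 (mem_erase.2 ⟨ha0.2, mem_univ _⟩)
  · intro a ha a' ha' hi
    have hm := mem_filter.1 (mem_coe.1 ha)
    have hm' := mem_filter.1 (mem_coe.1 ha')
    exact FI_inj j a a' (hm.2.trans hm'.2.symm) hi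

omit [Fintype ι] [DecidableEq ι] in
theorem cnt_eq (A : Finset (ι → Fin (2 + 1))) (j : ι) (x : Fin (2 + 1)) :
    cnt A j {x} + na A j x = A.card := by
  unfold cnt na
  have h := Finset.card_filter_add_card_filter_not (s := A) (fun a => a j = x)
  simp only [mem_singleton]
  exact h

theorem cnt_sum {δ : ℕ} {A B : Finset (ι → Fin (2 + 1))}
    (hd : ∀ a ∈ A, ∀ b ∈ B, hammingDist a b = δ) (j : ι) :
    ∑ x : Fin (2 + 1), cnt A j {x} = A.card := by
  have h := (t_struct t_dist ι 2 δ A B hd j).2.2.2.1 univ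
  rw [← h]
  simp [cnt]

theorem crit_half {S : Finset ι} {δ M : ℕ} {A B : Finset (ι → Fin (2 + 1))}
    (hC : Ctx S δ M A B) {j : ι} (hj : j ∈ S)
    (hcr : 2 * M + ∑ x : Fin (2 + 1), cnt A j {x} * cnt B j {x} < A.card * B.card)
    (x : Fin (2 + 1)) : na A j x ≠ 0 := by
  intro h0
  have h1 := (t_split1 t_dist (t_split t_dist) (t_struct t_dist) ι 2 S δ M B A
    (t_symm ι 2 S δ M A B hC) j hj x).1
  rw [h0, Nat.sub_zero] at h1
  have h2 := na_le2 B j x
  have h3 := cnt_eq A j x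
  have h4 := cnt_eq B j x
  have h5 : cnt A j {x} * cnt B j {x} ≤ ∑ x : Fin (2 + 1), cnt A j {x} * cnt B j {x} :=
    single_le_sum (f := fun x => cnt A j {x} * cnt B j {x}) (fun _ _ => Nat.zero_le _)
      (mem_univ x)
  have h6 : cnt A j {x} = A.card := by omega
  rw [h6] at h5
  have h7 : A.card * B.card = A.card * cnt B j {x} + A.card * na B j x := by rw [← h4]; ring
  have h8 : A.card * na B j x ≤ 2 * M := by
    calc A.card * na B j x ≤ A.card * (2 * nz B j x) := Nat.mul_le_mul_left _ h2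
      _ = 2 * (nz B j x * A.card) := by ring
      _ ≤ 2 * M := Nat.mul_le_mul_left _ h1
  omega

theorem crit_act {S : Finset ι} {δ M : ℕ} {A B : Finset (ι → Fin (2 + 1))}
    (hC : Ctx S δ M A B) {j : ι} (hj : j ∈ S)
    (hcr : 2 * M + ∑ x : Fin (2 + 1), cnt A j {x} * cnt B j {x} < A.card * B.card) :
    Act A B j := by
  intro y
  refine ⟨crit_half hC hj hcr y, crit_half (t_symm ι 2 S δ M A B hC) hj ?_ y⟩
  have : ∑ x : Fin (2 + 1), cnt B j {x} * cnt A j {x} =
      ∑ x : Fin (2 + 1), cnt A j {x} * cnt B j {x} :=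
    sum_congr rfl fun x _ => Nat.mul_comm _ _
  rw [this, Nat.mul_comm B.card]
  exact hcr

theorem dom3 (α β : Fin (2 + 1) → ℝ) (m : ℝ) (hm : m < 2 / 9) (h0 : ∀ x, 0 ≤ α x)
    (h1 : ∀ x, α x ≤ 1) (hs : ∑ x, α x = 1) (hA : ∀ x, (1 - α x) * β x ≤ m)
    (hB : ∀ x, (1 - β x) * α x ≤ m) :
    ∃ x, 2 / 3 < α x ∧ 2 / 3 < β x := by
  have hx : ∃ x, 1 / 3 ≤ α x := by
    by_contra hcon
    push Not at hcon
    rw [Fin.sum_univ_three] at hs
    have e0 := hcon 0
    have e1 := hcon 1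
    have e2 := hcon 2
    linarith
  obtain ⟨x, hx⟩ := hx
  have h2 : α x * (1 - α x) ≤ m := by
    rcases le_total (α x) (β x) with h | h
    · nlinarith [hA x, h1 x]
    · nlinarith [hB x, h0 x]
  have h3 : 2 / 3 < α x := by
    by_contra hcon
    push Not at hcon
    nlinarith
  refine ⟨x, h3, ?_⟩
  by_contra hcon
  push Not at hcon
  nlinarith [hB x]

theorem dom_coord {S : Finset ι} {δ M : ℕ} {A B : Finset (ι → Fin (2 + 1))}
    (hC : Ctx S δ M A B) (h9 : 9 * M < 2 * (A.card * B.card)) {j : ι} (hj : j ∈ S)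
    (hact : Act A B j) :
    ∃ x, 3 * na A j x < A.card ∧ 3 * na B j x < B.card := by
  have hP : 0 < A.card * B.card := by omega
  have hA0 : 0 < A.card := Nat.pos_of_mul_pos_right hP
  have hB0 : 0 < B.card := Nat.pos_of_mul_pos_left hP
  have pa : (0 : ℝ) < A.card := by exact_mod_cast hA0
  have pb : (0 : ℝ) < B.card := by exact_mod_cast hB0
  have s1 : ∀ x, na A j x * cnt B j {x} ≤ M := by
    intro x
    have h := (t_split1 t_dist (t_split t_dist) (t_struct t_dist) ι 2 S δ M A B hC j hj x).1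
    rw [nz_eq hC.dist hact x] at h
    have h4 := cnt_eq B j x
    have h5 : B.card - na B j x = cnt B j {x} := by omega
    rwa [h5] at h
  have s2 : ∀ x, na B j x * cnt A j {x} ≤ M := by
    intro x
    have h := (t_split1 t_dist (t_split t_dist) (t_struct t_dist) ι 2 S δ M B A
      (t_symm ι 2 S δ M A B hC) j hj x).1
    rw [nz_eqB hC.dist hact x] at h
    have h4 := cnt_eq A j x
    have h5 : A.card - na A j x = cnt A j {x} := by omega
    rwa [h5] at h
  have eA : ∀ x, (1 : ℝ) - cnt A j {x} / A.card = na A j x / A.card := by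
    intro x
    have h : (cnt A j {x} : ℝ) + na A j x = A.card := by exact_mod_cast cnt_eq A j x
    field_simp
    linarith
  have eB : ∀ x, (1 : ℝ) - cnt B j {x} / B.card = na B j x / B.card := by
    intro x
    have h : (cnt B j {x} : ℝ) + na B j x = B.card := by exact_mod_cast cnt_eq B j x
    field_simp
    linarith
  obtain ⟨x, hx1, hx2⟩ := dom3 (fun x => (cnt A j {x} : ℝ) / A.card)
    (fun x => (cnt B j {x} : ℝ) / B.card) ((M : ℝ) / (A.card * B.card)) (by
      rw [div_lt_iff₀ (by positivity)]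
      have : (9 : ℝ) * M < 2 * (A.card * B.card) := by exact_mod_cast h9
      linarith) (fun x => by positivity) (fun x => by
      rw [div_le_one pa]
      have := cnt_eq A j x
      exact_mod_cast (by omega : cnt A j {x} ≤ A.card)) (by
      rw [← Finset.sum_div]
      have h : (∑ x : Fin (2 + 1), (cnt A j {x} : ℝ)) = A.card := by
        exact_mod_cast cnt_sum hC.dist j
      rw [h]
      exact div_self pa.ne') (fun x => by
      show (1 - (cnt A j {x} : ℝ) / A.card) * ((cnt B j {x} : ℝ) / B.card) ≤ _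
      rw [eA x, div_mul_div_comm]
      have : (na A j x : ℝ) * cnt B j {x} ≤ M := by exact_mod_cast s1 x
      exact div_le_div_of_nonneg_right this (by positivity)) (fun x => by
      show (1 - (cnt B j {x} : ℝ) / B.card) * ((cnt A j {x} : ℝ) / A.card) ≤ _
      rw [eB x, div_mul_div_comm, mul_comm (B.card : ℝ)]
      have : (na B j x : ℝ) * cnt A j {x} ≤ M := by exact_mod_cast s2 x
      exact div_le_div_of_nonneg_right this (by positivity))
  refine ⟨x, ?_, ?_⟩
  · rw [lt_div_iff₀ pa] at hx1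
    have h : (cnt A j {x} : ℝ) + na A j x = A.card := by exact_mod_cast cnt_eq A j x
    have : (3 : ℝ) * na A j x < A.card := by linarith
    exact_mod_cast this
  · rw [lt_div_iff₀ pb] at hx2
    have h : (cnt B j {x} : ℝ) + na B j x = B.card := by exact_mod_cast cnt_eq B j x
    have : (3 : ℝ) * na B j x < B.card := by linarith
    exact_mod_cast this

end U931Q3
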