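import Pool.Agent.H825R2.CD.VV
import Pool.Agent.H825R2.CD.DI

/-! The alternative pair at two coordinates, for an arbitrary letter at each of them. The proof
is the one of `H825CD.t_V`; only the disjointness of the two erased parts is argued without the
hypothesis on the common letters. -/

namespace U931Q3
open Finset H825CD

theorem t_V3 {ι : Type} [Fintype ι] [DecidableEq ι] {Q : ℕ} {S : Finset ι} {δ M : ℕ}
    {A B : Finset (ι → Fin (Q + 1))} (hC : Ctx S δ M A B) {j i : ι} (hj : j ∈ S) (hi : i ∈ S)
    (hij : i ≠ j) (x y : Fin (Q + 1)) (htw : ¬ Twin A j i x y) :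
    p00 A j i x y * (p00 B j i x y + 2 * Q * (z10 B j i x y + z01 B j i x y)
      + Q ^ 2 * z11 B j i x y) ≤ A.card * B.card := by
  have h := t_dist
  set N10 := (B.filter (fun a => a j ≠ x ∧ a i = y)).image (fun a => er i (er j a)) with hN10
  set N01 := (B.filter (fun a => a j = x ∧ a i ≠ y)).image (fun a => er i (er j a)) with hN01
  set N11 := (B.filter (fun a => a j ≠ x ∧ a i ≠ y)).image (fun a => er i (er j a)) with hN11
  have z10e : z10 B j i x y = N10.card := rfl
  have z01e : z01 B j i x y = N01.card := rfl
  have z11e : z11 B j i x y = N11.card := rfl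
  have hdisj : Disjoint N10 N01 := by
    rw [disjoint_left]
    intro c hc1 hc2
    rw [hN10, mem_image] at hc1
    rw [hN01, mem_image] at hc2
    obtain ⟨b, hb, hbe⟩ := hc1
    obtain ⟨b', hb', hbe'⟩ := hc2
    rw [mem_filter] at hb hb'
    obtain ⟨hb, hbj, hbi⟩ := hb
    obtain ⟨hb', hbj', hbi'⟩ := hb'
    apply htw
    intro a ha
    have d1 := VV_dist2 h j i hij a b
    have d2 := VV_dist2 h j i hij a b'
    rw [hbe, hC.dist a ha b hb] at d1
    rw [hbe', hC.dist a ha b' hb'] at d2
    by_contra hcon
    by_cases hax : a j = x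
    · have hay : a i ≠ y := by
        intro hay
        exact hcon ⟨fun _ => hay, fun _ => hax⟩
      have e1 : a j ≠ b j := by rw [hax]; exact fun e => hbj e.symm
      have e2 : a i ≠ b i := by rw [hbi]; exact hay
      have e3 : a j = b' j := by rw [hax, hbj']
      rw [if_pos e1, if_pos e2] at d1
      rw [if_neg (not_not.mpr e3)] at d2
      split_ifs at d2 <;> omega
    · have hay : a i = y := by
        by_contra hay
        exact hcon ⟨fun e => absurd e hax, fun e => absurd e hay⟩
      have e2 : a i = b i := by rw [hbi, hay]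
      have e3 : a j ≠ b' j := by rw [hbj']; exact hax
      have e4 : a i ≠ b' i := by rw [hay]; exact fun e => hbi' e.symm
      rw [if_neg (not_not.mpr e2)] at d1
      rw [if_pos e3, if_pos e4] at d2
      split_ifs at d1 <;> omega
  set N1 := N10 ∪ N01 with hN1
  have hN1c : N1.card = N10.card + N01.card := by rw [hN1, card_union_of_disjoint hdisj]
  have hsub : ∀ p : (ι → Fin (Q + 1)) → Prop, ∀ [DecidablePred p],
      (B.filter p).image (fun a => er i (er j a)) ⊆ B.image (fun a => er i (er j a)) := by
    intro p _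
    exact image_subset_image (filter_subset _ _)
  have hN1sub : N1 ⊆ B.image (fun a => er i (er j a)) := union_subset (hsub _) (hsub _)
  have hN11sub : N11 ⊆ B.image (fun a => er i (er j a)) := hsub _
  have hz := VV_zero j i hij B
  have hN1z : ∀ c ∈ N1, c j = 0 ∧ c i = 0 := fun c hc => hz c (hN1sub hc)
  have hN11z : ∀ c ∈ N11, c j = 0 ∧ c i = 0 := fun c hc => hz c (hN11sub hc)
  set A' := A.filter (fun a => a j = x ∧ a i = y) with hA'
  set B0 := B.filter (fun a => a j = x ∧ a i = y) with hB0
  set P1 := VV_part j i (univ.erase x) {y} N1 with hP1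
  set P2 := VV_part j i {x} (univ.erase y) N1 with hP2
  set P3 := VV_part j i (univ.erase x) (univ.erase y) N11 with hP3
  have m0 : ∀ w ∈ B0, w ∈ B ∧ w j = x ∧ w i = y := by
    intro w hw; rw [hB0, mem_filter] at hw; exact hw
  have m1 : ∀ w ∈ P1, w j ≠ x ∧ w i = y ∧ er i (er j w) ∈ N1 := by
    intro w hw
    have := VV_mem j i hij _ _ _ hN1z w hw
    simpa using this
  have m2 : ∀ w ∈ P2, w j = x ∧ w i ≠ y ∧ er i (er j w) ∈ N1 := by
    intro w hw
    have := VV_mem j i hij _ _ _ hN1z w hw
    simpa using this
  have m3 : ∀ w ∈ P3, w j ≠ x ∧ w i ≠ y ∧ er i (er j w) ∈ N11 := by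
    intro w hw
    have := VV_mem j i hij _ _ _ hN11z w hw
    simpa using this
  have c1 : P1.card = Q * N1.card := by
    rw [hP1, VV_card j i hij _ _ _ hN1z, card_erase_of_mem (mem_univ x), card_singleton,
      card_univ, Fintype.card_fin]
    simp
  have c2 : P2.card = Q * N1.card := by
    rw [hP2, VV_card j i hij _ _ _ hN1z, card_erase_of_mem (mem_univ y), card_singleton,
      card_univ, Fintype.card_fin]
    simp
  have c3 : P3.card = Q ^ 2 * N11.card := by
    rw [hP3, VV_card j i hij _ _ _ hN11z, card_erase_of_mem (mem_univ x),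
      card_erase_of_mem (mem_univ y), card_univ, Fintype.card_fin]
    simp [sq]
  have d01 : Disjoint B0 P1 := by
    rw [disjoint_left]; intro w hw hw'
    exact (m1 w hw').1 (m0 w hw).2.1
  have d012 : Disjoint (B0 ∪ P1) P2 := by
    rw [disjoint_left]; intro w hw hw'
    rcases mem_union.mp hw with hw | hw
    · exact (m2 w hw').2.1 (m0 w hw).2.2
    · exact (m1 w hw).1 (m2 w hw').1
  have d0123 : Disjoint (B0 ∪ P1 ∪ P2) P3 := by
    rw [disjoint_left]; intro w hw hw'
    rcases mem_union.mp hw with hw | hw
    · rcases mem_union.mp hw with hw | hw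
      · exact (m3 w hw').1 (m0 w hw).2.1
      · exact (m3 w hw').2.1 (m1 w hw).2.1
    · exact (m3 w hw').1 (m2 w hw).1
  have hcard : (B0 ∪ P1 ∪ P2 ∪ P3).card
      = B0.card + Q * N1.card + Q * N1.card + Q ^ 2 * N11.card := by
    rw [card_union_of_disjoint d0123, card_union_of_disjoint d012, card_union_of_disjoint d01,
      c1, c2, c3]
  have key := hC.max A' (B0 ∪ P1 ∪ P2 ∪ P3) ?_ ?_ ?_
  · rw [hcard, hN1c] at key
    have : p00 A j i x y * (p00 B j i x y + 2 * Q * (z10 B j i x y + z01 B j i x y)
      + Q ^ 2 * z11 B j i x y) = A'.card * (B0.card + Q * (N10.card + N01.card)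
        + Q * (N10.card + N01.card) + Q ^ 2 * N11.card) := by
      rw [z10e, z01e, z11e]
      show A'.card * (B0.card + 2 * Q * (N10.card + N01.card) + Q ^ 2 * N11.card) = _
      ring
    rw [this]
    exact key
  · intro a ha
    rw [hA', mem_filter] at ha
    exact hC.supA a ha.1
  · intro w hw
    rcases mem_union.mp hw with hw | hw
    · rcases mem_union.mp hw with hw | hw
      · rcases mem_union.mp hw with hw | hw
        · exact hC.supB w (m0 w hw).1
        · exact VV_sup j i S hj hi B hC.supB w (hN1sub (m1 w hw).2.2)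
      · exact VV_sup j i S hj hi B hC.supB w (hN1sub (m2 w hw).2.2)
    · exact VV_sup j i S hj hi B hC.supB w (hN11sub (m3 w hw).2.2)
  · intro a ha w hw
    rw [hA', mem_filter] at ha
    obtain ⟨ha, haj, hai⟩ := ha
    have dw := VV_dist2 h j i hij a w
    -- distance to a word of `N1`
    have hd1 : ∀ c ∈ N1, hammingDist (er i (er j a)) c + 1 = δ := by
      intro c hc
      rcases mem_union.mp hc with hc | hc
      · rw [hN10, mem_image] at hc
        obtain ⟨b, hb, rfl⟩ := hc
        rw [mem_filter] at hb
        have d := VV_dist2 h j i hij a b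
        rw [if_pos (by rw [haj]; exact fun e => hb.2.1 e.symm),
          if_neg (by rw [hai, hb.2.2]; simp), hC.dist a ha b hb.1] at d
        simpa using d
      · rw [hN01, mem_image] at hc
        obtain ⟨b, hb, rfl⟩ := hc
        rw [mem_filter] at hb
        have d := VV_dist2 h j i hij a b
        rw [if_neg (by rw [haj, hb.2.1]; simp),
          if_pos (by rw [hai]; exact fun e => hb.2.2 e.symm), hC.dist a ha b hb.1] at d
        simpa using d
    have hd2 : ∀ c ∈ N11, hammingDist (er i (er j a)) c + 2 = δ := by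
      intro c hc
      rw [hN11, mem_image] at hc
      obtain ⟨b, hb, rfl⟩ := hc
      rw [mem_filter] at hb
      have d := VV_dist2 h j i hij a b
      rw [if_pos (by rw [haj]; exact fun e => hb.2.1 e.symm),
        if_pos (by rw [hai]; exact fun e => hb.2.2 e.symm), hC.dist a ha b hb.1] at d
      simpa using d
    rcases mem_union.mp hw with hw | hw
    · rcases mem_union.mp hw with hw | hw
      · rcases mem_union.mp hw with hw | hw
        · exact hC.dist a ha w (m0 w hw).1
        · obtain ⟨hw1, hw2, hw3⟩ := m1 w hw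
          rw [if_pos (by rw [haj]; exact fun e => hw1 e.symm),
            if_neg (by rw [hai, hw2]; simp)] at dw
          have := hd1 _ hw3
          omega
      · obtain ⟨hw1, hw2, hw3⟩ := m2 w hw
        rw [if_neg (by rw [haj, hw1]; simp),
          if_pos (by rw [hai]; exact fun e => hw2 e.symm)] at dw
        have := hd1 _ hw3
        omega
    · obtain ⟨hw1, hw2, hw3⟩ := m3 w hw
      rw [if_pos (by rw [haj]; exact fun e => hw1 e.symm),
        if_pos (by rw [hai]; exact fun e => hw2 e.symm)] at dw
      have := hd2 _ hw3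
      omega

end U931Q3
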