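import Pool.Agent.U931.Q3.One
import Pool.Agent.U931.Q3.V3
import Pool.Agent.H825R2.CD.SS

/-! Ternary constant distance code pairs: facts at two coordinates. -/

namespace U931Q3
open Finset H825CD

variable {ι : Type} [Fintype ι] [DecidableEq ι]

/-- the second difference of the distances at one coordinate is nonzero -/
theorem tne (u u' v v' : Fin (2 + 1)) (h1 : u ≠ u') (h2 : v ≠ v') :
    (if u ≠ v then (1 : ℤ) else 0) - (if u ≠ v' then 1 else 0) -
    (if u' ≠ v then 1 else 0) + (if u' ≠ v' then 1 else 0) ≠ 0 := by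
  have e1 := u.isLt
  have e2 := v.isLt
  have e3 := u'.isLt
  have e4 := v'.isLt
  simp only [ne_eq, Fin.ext_iff] at h1 h2 ⊢
  split_ifs <;> omega

theorem partner3 {S : Finset ι} {δ : ℕ} {A B : Finset (ι → Fin (2 + 1))} (hSA : Sup S A)
    (hd : ∀ a ∈ A, ∀ b ∈ B, hammingDist a b = δ) {j : ι} (hact : Act A B j) :
    ∃ i ∈ S, i ≠ j ∧ Act A B i := by
  obtain ⟨a, ha⟩ := card_pos.1 (Nat.pos_of_ne_zero (hact 0).1)
  obtain ⟨haA, -⟩ := mem_filter.1 ha
  obtain ⟨a', ha'⟩ := card_pos.1 (Nat.pos_of_ne_zero (hact (a j)).1)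
  obtain ⟨haA', haj⟩ := mem_filter.1 ha'
  obtain ⟨b, hb⟩ := card_pos.1 (Nat.pos_of_ne_zero (hact 0).2)
  obtain ⟨hbB, -⟩ := mem_filter.1 hb
  obtain ⟨b', hb'⟩ := card_pos.1 (Nat.pos_of_ne_zero (hact (b j)).2)
  obtain ⟨hbB', hbj⟩ := mem_filter.1 hb'
  have hsum : ∀ p q : ι → Fin (2 + 1), ((hammingDist p q : ℕ) : ℤ) =
      ∑ i, if p i ≠ q i then (1 : ℤ) else 0 := by
    intro p q
    have : hammingDist p q = (univ.filter fun i => p i ≠ q i).card := rfl
    rw [this, card_filter]
    push_cast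
    rfl
  set t : ι → ℤ := fun i => (if a i ≠ b i then (1 : ℤ) else 0) - (if a i ≠ b' i then 1 else 0) -
    (if a' i ≠ b i then 1 else 0) + (if a' i ≠ b' i then 1 else 0) with ht
  have h0 : ∑ i, t i = 0 := by
    simp only [ht]
    rw [sum_add_distrib, sum_sub_distrib, sum_sub_distrib, ← hsum, ← hsum, ← hsum, ← hsum,
      hd a haA b hbB, hd a haA b' hbB', hd a' haA' b hbB, hd a' haA' b' hbB']
    ring
  have hj : t j ≠ 0 := tne (a j) (a' j) (b j) (b' j) (Ne.symm haj) (Ne.symm hbj)
  have h1 : ∃ i, i ≠ j ∧ t i ≠ 0 := by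
    by_contra hcon
    push Not at hcon
    rw [← add_sum_erase univ t (mem_univ j)] at h0
    rw [sum_eq_zero (fun i hi => hcon i (ne_of_mem_erase hi)), add_zero] at h0
    exact hj h0
  obtain ⟨i, hij, hti⟩ := h1
  have hai : a i ≠ a' i := by
    intro h
    simp only [ht, h] at hti
    omega
  have hbi : b i ≠ b' i := by
    intro h
    simp only [ht, h] at hti
    omega
  have hiS : i ∈ S := by
    by_contra hiS
    exact hai ((hSA a haA i hiS).trans (hSA a' haA' i hiS).symm)
  refine ⟨i, hiS, hij, fun y => ⟨?_, ?_⟩⟩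
  · apply Nat.pos_iff_ne_zero.mp
    rw [na, card_pos]
    by_cases h : a i = y
    · exact ⟨a', mem_filter.mpr ⟨haA', fun h2 => hai (h.trans h2.symm)⟩⟩
    · exact ⟨a, mem_filter.mpr ⟨haA, h⟩⟩
  · apply Nat.pos_iff_ne_zero.mp
    rw [na, card_pos]
    by_cases h : b i = y
    · exact ⟨b', mem_filter.mpr ⟨hbB', fun h2 => hbi (h.trans h2.symm)⟩⟩
    · exact ⟨b, mem_filter.mpr ⟨hbB, h⟩⟩

/-- number of words with both letters different -/
def n11 (B : Finset (ι → Fin (2 + 1))) (j i : ι) (x y : Fin (2 + 1)) : ℕ :=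
  (B.filter (fun a => a j ≠ x ∧ a i ≠ y)).card

/-- number of words with the letter at `j` different -/
def n10 (B : Finset (ι → Fin (2 + 1))) (j i : ι) (x y : Fin (2 + 1)) : ℕ :=
  (B.filter (fun a => a j ≠ x ∧ a i = y)).card

/-- number of words with the letter at `i` different -/
def n01 (B : Finset (ι → Fin (2 + 1))) (j i : ι) (x y : Fin (2 + 1)) : ℕ :=
  (B.filter (fun a => a j = x ∧ a i ≠ y)).card

omit [Fintype ι] [DecidableEq ι] in
theorem parts (B : Finset (ι → Fin (2 + 1))) (j i : ι) (x y : Fin (2 + 1)) :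
    B.card = p00 B j i x y + n10 B j i x y + n01 B j i x y + n11 B j i x y ∧
    na B j x = n10 B j i x y + n11 B j i x y ∧ na B i y = n01 B j i x y + n11 B j i x y := by
  have h1 := card_filter_add_card_filter_not (s := B) (fun a => a j = x)
  have h2 := card_filter_add_card_filter_not (s := B.filter (fun a => a j = x))
    (fun a => a i = y)
  have h3 := card_filter_add_card_filter_not (s := B.filter (fun a => ¬ a j = x))
    (fun a => a i = y)
  rw [filter_filter, filter_filter] at h2 h3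
  have h4 := card_filter_add_card_filter_not (s := B.filter (fun a => ¬ a i = y))
    (fun a => a j = x)
  rw [filter_filter, filter_filter] at h4
  have e1 : B.filter (fun a => ¬ a i = y ∧ a j = x) = B.filter (fun a => a j = x ∧ a i ≠ y) :=
    filter_congr fun a _ => by tauto
  have e2 : B.filter (fun a => ¬ a i = y ∧ ¬ a j = x) =
      B.filter (fun a => a j ≠ x ∧ a i ≠ y) := filter_congr fun a _ => by tauto
  rw [e1, e2] at h4
  unfold p00 n10 n01 n11 na
  simp only [ne_eq] at *
  omega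

omit [Fintype ι] in
theorem er_ii {j i : ι} {b b' : ι → Fin (2 + 1)} (he : er i (er j b) = er i (er j b'))
    (h : b i = b' i) : er j b = er j b' := by
  funext k
  by_cases hk : k = j
  · subst hk
    simp [er]
  · by_cases hk2 : k = i
    · subst hk2
      simp [er, Function.update_of_ne hk, h]
    · have := congrFun he k
      unfold er at this ⊢
      rw [Function.update_of_ne hk, Function.update_of_ne hk]
      rwa [Function.update_of_ne hk2, Function.update_of_ne hk2, Function.update_of_ne hk,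
        Function.update_of_ne hk] at this

omit [Fintype ι] in
theorem er_jj {j i : ι} {b b' : ι → Fin (2 + 1)}
    (he : er i (er j b) = er i (er j b')) (h : b j = b' j) : er i b = er i b' := by
  funext k
  by_cases hk2 : k = i
  · subst hk2
    simp [er]
  · by_cases hk : k = j
    · subst hk
      simp [er, Function.update_of_ne hk2, h]
    · have := congrFun he k
      unfold er at this ⊢
      rw [Function.update_of_ne hk2, Function.update_of_ne hk2]
      rwa [Function.update_of_ne hk2, Function.update_of_ne hk2, Function.update_of_ne hk,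
        Function.update_of_ne hk] at this

section

variable {δ : ℕ} {A B : Finset (ι → Fin (2 + 1))} {j i : ι}

theorem z10_eq (hd : ∀ a ∈ A, ∀ b ∈ B, hammingDist a b = δ) (hj : Act A B j)
    (x y : Fin (2 + 1)) : z10 B j i x y = n10 B j i x y := by
  unfold z10 n10
  apply card_image_of_injOn
  intro b hb b' hb' he
  have h1 := mem_filter.1 (mem_coe.1 hb)
  have h2 := mem_filter.1 (mem_coe.1 hb')
  exact inj_B hd hj b h1.1 b' h2.1 (er_ii he (h1.2.2.trans h2.2.2.symm))

theorem z01_eq (hd : ∀ a ∈ A, ∀ b ∈ B, hammingDist a b = δ) (hi : Act A B i)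
    (x y : Fin (2 + 1)) : z01 B j i x y = n01 B j i x y := by
  unfold z01 n01
  apply card_image_of_injOn
  intro b hb b' hb' he
  have h1 := mem_filter.1 (mem_coe.1 hb)
  have h2 := mem_filter.1 (mem_coe.1 hb')
  exact inj_B hd hi b h1.1 b' h2.1 (er_jj he (h1.2.1.trans h2.2.1.symm))

theorem f3 (u v v' x : Fin (2 + 1)) (h1 : v ≠ x) (h2 : v' ≠ x) (h3 : v ≠ v') :
    u = x ↔ (u ≠ v ∧ u ≠ v') := by
  have e1 := u.isLt
  have e2 := v.isLt
  have e3 := v'.isLt
  have e4 := x.isLt
  simp only [ne_eq, Fin.ext_iff] at h1 h2 h3 ⊢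
  omega

theorem prop4 (p p' r r' : Prop) [Decidable p] [Decidable p'] [Decidable r] [Decidable r']
    (h1 : p ∨ p') (h2 : r ∨ r')
    (h : (if p then 1 else 0) + (if r then 1 else 0) =
      (if p' then 1 else 0) + (if r' then (1 : ℕ) else 0)) : (p ∧ p') ↔ (r ∧ r') := by
  by_cases c1 : p <;> by_cases c2 : p' <;> by_cases c3 : r <;> by_cases c4 : r' <;>
    simp_all

theorem inj11 (hd : ∀ a ∈ A, ∀ b ∈ B, hammingDist a b = δ) (hj : Act A B j) (hi : Act A B i)
    (hij : i ≠ j) (x y : Fin (2 + 1)) (htw : ¬ Twin A j i x y) :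
    z11 B j i x y = n11 B j i x y := by
  unfold z11 n11
  apply card_image_of_injOn
  intro b hb b' hb' he
  have h1 := mem_filter.1 (mem_coe.1 hb)
  have h2 := mem_filter.1 (mem_coe.1 hb')
  by_contra hne
  have hbj : b j ≠ b' j := fun h =>
    hne (inj_B hd hi b h1.1 b' h2.1 (er_jj he h))
  have hbi : b i ≠ b' i := fun h =>
    hne (inj_B hd hj b h1.1 b' h2.1 (er_ii he h))
  apply htw
  intro a ha
  have d1 := VV_dist2 t_dist j i hij a b
  have d2 := VV_dist2 t_dist j i hij a b'
  have he' : er i (er j b) = er i (er j b') := he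
  rw [he', hd a ha b h1.1] at d1
  rw [hd a ha b' h2.1] at d2
  rw [f3 (a j) (b j) (b' j) x h1.2.1 h2.2.1 hbj, f3 (a i) (b i) (b' i) y h1.2.2 h2.2.2 hbi]
  refine prop4 (a j ≠ b j) (a j ≠ b' j) (a i ≠ b i) (a i ≠ b' i) ?_ ?_ ?_
  · by_contra hcon
    push Not at hcon
    exact hbj (hcon.1.symm.trans hcon.2)
  · by_contra hcon
    push Not at hcon
    exact hbi (hcon.1.symm.trans hcon.2)
  · have := d1.trans d2.symm
    rw [Nat.add_assoc, Nat.add_assoc] at this
    exact Nat.add_left_cancel this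

theorem le11 (hd : ∀ a ∈ A, ∀ b ∈ B, hammingDist a b = δ) (hi : Act A B i)
    (x y : Fin (2 + 1)) : n11 A j i x y ≤ 2 * z11 A j i x y := by
  unfold z11 n11
  apply card_le_mul_card_image
  intro c _
  have h2 : (univ.erase x : Finset (Fin (2 + 1))).card = 2 := by
    rw [card_erase_of_mem (mem_univ x), card_univ, Fintype.card_fin]
  refine le_trans (card_le_card_of_injOn (t := univ.erase x) (fun a => a j) ?_ ?_) h2.le
  · intro a ha
    have ha0 := mem_filter.1 (mem_filter.1 (mem_coe.1 ha)).1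
    exact mem_coe.2 (mem_erase.2 ⟨ha0.2.1, mem_univ _⟩)
  · intro a ha a' ha' hi'
    have hm := mem_filter.1 (mem_coe.1 ha)
    have hm' := mem_filter.1 (mem_coe.1 ha')
    exact inj_A hd hi a (mem_filter.1 hm.1).1 a' (mem_filter.1 hm'.1).1
      (er_jj (hm.2.trans hm'.2.symm) hi')

end

theorem real_not_both (u v : ℝ) (hu : 1 / 3 < u) (hu1 : u < 1) (hv : 1 / 3 < v) (hv1 : v < 1)
    (h1 : u * (4 - 3 * v) ≤ 1) (h2 : v * (4 - 3 * u) ≤ 1) : False := by
  rcases le_total u v with h | h
  · nlinarith [mul_pos (by linarith : (0 : ℝ) < 3 * v - 1) (by linarith : (0 : ℝ) < 1 - v),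
      mul_nonneg (by linarith : (0 : ℝ) ≤ v) (sub_nonneg.2 h)]
  · nlinarith [mul_pos (by linarith : (0 : ℝ) < 3 * u - 1) (by linarith : (0 : ℝ) < 1 - u),
      mul_nonneg (by linarith : (0 : ℝ) ≤ u) (sub_nonneg.2 h)]

theorem one_twin {S : Finset ι} {δ M : ℕ} {A B : Finset (ι → Fin (2 + 1))}
    (hC : Ctx S δ M A B) {j i : ι} (hj : j ∈ S) (hi : i ∈ S) (hij : i ≠ j)
    (aj : Act A B j) (ai : Act A B i) (x y : Fin (2 + 1))
    (x1 : 3 * na A j x < A.card) (x2 : 3 * na B j x < B.card)
    (y1 : 3 * na A i y < A.card) (y2 : 3 * na B i y < B.card)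
    (hA : ¬ Twin A j i x y) (hB : ¬ Twin B j i x y) : False := by
  have v1 := t_V3 hC hj hi hij x y hA
  have v2 := t_V3 (t_symm ι 2 S δ M A B hC) hj hi hij x y hB
  have hd' : ∀ b ∈ B, ∀ a ∈ A, hammingDist b a = δ := fun b hb a ha => by
    rw [hammingDist_comm]; exact hC.dist a ha b hb
  rw [z10_eq hC.dist aj x y, z01_eq hC.dist ai x y, inj11 hC.dist aj ai hij x y hA] at v1
  rw [z10_eq hd' aj.symm x y, z01_eq hd' ai.symm x y, inj11 hd' aj.symm ai.symm hij x y hB] at v2
  obtain ⟨a1, a2, a3⟩ := parts A j i x y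
  obtain ⟨b1, b2, b3⟩ := parts B j i x y
  have a4 := (aj x).1
  have b4 := (aj x).2
  have hA0 : 0 < A.card := by omega
  have hB0 : 0 < B.card := by omega
  have pa : (0 : ℝ) < A.card := by exact_mod_cast hA0
  have pb : (0 : ℝ) < B.card := by exact_mod_cast hB0
  set u := p00 A j i x y with hu
  set v := p00 B j i x y with hv
  have w1 : u * (4 * B.card) ≤ A.card * B.card + 3 * (u * v) := by
    rw [b1] at v1 ⊢
    nlinarith [v1]
  have w2 : v * (4 * A.card) ≤ B.card * A.card + 3 * (v * u) := by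
    rw [a1] at v2 ⊢
    nlinarith [v2]
  have k1 : A.card < 3 * u := by omega
  have k2 : u < A.card := by omega
  have k3 : B.card < 3 * v := by omega
  have k4 : v < B.card := by omega
  have r1 : (u : ℝ) * (4 * B.card) ≤ A.card * B.card + 3 * (u * v) := by exact_mod_cast w1
  have r2 : (v : ℝ) * (4 * A.card) ≤ B.card * A.card + 3 * (v * u) := by exact_mod_cast w2
  have k1' : (A.card : ℝ) < 3 * u := by exact_mod_cast k1
  have k2' : (u : ℝ) < A.card := by exact_mod_cast k2
  have k3' : (B.card : ℝ) < 3 * v := by exact_mod_cast k3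
  have k4' : (v : ℝ) < B.card := by exact_mod_cast k4
  refine real_not_both ((u : ℝ) / A.card) ((v : ℝ) / B.card) ?_ ?_ ?_ ?_ ?_ ?_
  · rw [lt_div_iff₀ pa]; linarith
  · rw [div_lt_one pa]; exact k2'
  · rw [lt_div_iff₀ pb]; linarith
  · rw [div_lt_one pb]; exact k4'
  · have : (u : ℝ) / A.card * (4 - 3 * ((v : ℝ) / B.card)) =
        (u * (4 * B.card) - 3 * (u * v)) / (A.card * B.card) := by
      field_simp
    rw [this, div_le_one (by positivity)]
    linarith
  · have : (v : ℝ) / B.card * (4 - 3 * ((u : ℝ) / A.card)) =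
        (v * (4 * A.card) - 3 * (v * u)) / (B.card * A.card) := by
      field_simp
    rw [this, div_le_one (by positivity)]
    linarith

end U931Q3
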